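import Pool.Agent.Q315.RD2

/-!
# EVERY system of even numbers `2 n₁, …, 2 nⱼ`: distinct summands `nᵢ - t`, `nᵢ + t` with a common distance

Let `g ≥ 2` be a base and `K` a large number of digits. For every `i < K` let `A i` be an arbitrary non-empty set of digits. Nothing
is assumed about these sets except that they are not too small on average: the number `|A 0| ⋯ |A (K - 1)|` of the integers
`u < g ^ K` whose `i`-th digit belongs to `A i` for all `i < K` is at least `exp (- c K) g ^ K`, where `c > 0` does not depend on the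
base (`Rich`).

Let `n₁, …, nⱼ ≤ g ^ (E K)` be ANY integers for which there is no local obstruction (`Adm`; there is none for `j = 1`), and let
`[t₀, t₀ + g ^ K)`, `t₀ ≥ 1`, be any interval below the `nᵢ`. The number of the `t = t₀ + u`, `u` with digits in the `A i`, such
that ALL the numbers `nᵢ - t` and `nᵢ + t` have at most `r` prime factors, all larger than `g ^ (K / r)`, has the expected order of
magnitude from below, and the number of the `t` for which all of them are primes (so that every `2 nᵢ` is the sum of the distinct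
primes `nᵢ - t` and `nᵢ + t`) from above. All constants are independent of the `nᵢ`, of `t₀` and of the sets `A i`.

Proof. The theorem on almost prime values of polynomials at integers with restricted digits, uniform in the polynomial, of the
starting library (`Pool.Agent.Y816.PD.uni_fun`), in the form `Pool.Agent.Q315.RD.formsZ`.
-/

set_option autoImplicit false

namespace Pool.Agent.Results.MP_61161c_nt.CommonDistance

open Filter Finset Polynomial
open Pool.Agent.Q315.RD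

/-- for all `i` both `nᵢ - t` and `nᵢ + t` have the property `P` (below always `0 < t < nᵢ`, so that `nᵢ - t ≠ nᵢ + t`) -/
def All (P : ℕ → Prop) {j : ℕ} (n : Fin j → ℕ) (t : ℕ) : Prop :=
  ∀ i, P (n i - t) ∧ P (n i + t)

/-- for every prime `p` there is a `t` such that `p` divides none of the numbers `nᵢ - t`, `nᵢ + t` -/
def Adm {j : ℕ} (n : Fin j → ℕ) : Prop :=
  ∀ p : ℕ, p.Prime → ∃ t : ℕ, ∀ i, ¬ (p : ℤ) ∣ (n i : ℤ) - t ∧ ¬ (p : ℤ) ∣ (n i : ℤ) + t

/-- The product of `1 - ν / p` over the primes `p ≤ y`, `ν` the number of the zeros of `∏ (nᵢ - X) (nᵢ + X)` modulo `p`. -/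
noncomputable def V {j : ℕ} (n : Fin j → ℕ) (y : ℕ) : ℝ :=
  rootDensity (fun t => ∏ i, (((n i : ℤ) - t) * ((n i : ℤ) + t))) y

/-- the forms -/
def F {j : ℕ} (n : Fin j → ℕ) (t₀ : ℕ) : Fin (j + j) → ℕ → ℤ :=
  Fin.append (fun i u => (n i : ℤ) - (t₀ + u)) (fun i u => (n i : ℤ) + (t₀ + u))

/-- the polynomial -/
noncomputable def Q {j : ℕ} (n : Fin j → ℕ) (t₀ : ℤ) : ℤ[X] :=
  ∏ i, ((C ((n i : ℤ) - t₀) - X) * (C ((n i : ℤ) + t₀) + X))

lemma Q_eval {j : ℕ} (n : Fin j → ℕ) (t₀ x : ℤ) :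
    (Q n t₀).eval x = ∏ i, (((n i : ℤ) - (t₀ + x)) * ((n i : ℤ) + (t₀ + x))) := by
  unfold Q
  rw [eval_prod]
  apply prod_congr rfl
  intro i _
  simp only [eval_mul, eval_sub, eval_add, eval_C, eval_X]
  ring

lemma Q_deg {j : ℕ} (n : Fin j → ℕ) (t₀ : ℤ) : (Q n t₀).natDegree ≤ 2 * j := by
  unfold Q
  refine (natDegree_prod_le _ _).trans ?_
  have h : ∀ i ∈ (univ : Finset (Fin j)),
      ((C ((n i : ℤ) - t₀) - X) * (C ((n i : ℤ) + t₀) + X) : ℤ[X]).natDegree ≤ 2 := by
    intro i _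
    refine natDegree_mul_le.trans ?_
    have e1 : (C ((n i : ℤ) - t₀) - X : ℤ[X]).natDegree ≤ 1 := by
      refine (natDegree_sub_le _ _).trans ?_
      rw [natDegree_C]
      exact max_le (by norm_num) natDegree_X_le
    have e2 : (C ((n i : ℤ) + t₀) + X : ℤ[X]).natDegree ≤ 1 := by
      refine (natDegree_add_le _ _).trans ?_
      rw [natDegree_C]
      exact max_le (by norm_num) natDegree_X_le
    omega
  refine (sum_le_card_nsmul _ _ _ h).trans ?_
  rw [card_univ, Fintype.card_fin, smul_eq_mul, mul_comm]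

lemma F_prod {j : ℕ} (n : Fin j → ℕ) (t₀ u : ℕ) : ∏ i, F n t₀ i u = (Q n t₀).eval (u : ℤ) := by
  rw [Q_eval, Fin.prod_univ_add, prod_mul_distrib]
  congr 1
  · apply prod_congr rfl
    intro i _
    unfold F
    rw [Fin.append_left]
  · apply prod_congr rfl
    intro i _
    unfold F
    rw [Fin.append_right]

lemma V_eq {j : ℕ} (n : Fin j → ℕ) (t₀ y : ℕ) : rootDensity (fun u => ∏ i, F n t₀ i u) y = V n y := by
  have h := rootDensity_shift (Q n 0) t₀ y
  unfold V
  have h1 : (fun m : ℕ => (Q n 0).eval (m : ℤ)) = fun m : ℕ => ∏ i, (((n i : ℤ) - m) * ((n i : ℤ) + m)) := by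
    funext m
    rw [Q_eval]
    simp only [zero_add]
  have h2 : (fun u : ℕ => (Q n 0).eval ((t₀ : ℤ) + u)) = fun u : ℕ => ∏ i, F n t₀ i u := by
    funext u
    rw [F_prod, Q_eval, Q_eval]
    simp only [zero_add]
  rw [h1, h2] at h
  exact h

/-- there is no obstruction for a single `n` -/
lemma adm_one (n : ℕ) : Adm (fun _ : Fin 1 => n) := by
  intro p hp
  rcases Nat.lt_or_ge p 3 with h3 | h3
  · have h2 : p = 2 := by
      have := hp.two_le
      omega
    subst h2
    refine ⟨n + 1, fun _ => ?_⟩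
    push_cast
    omega
  · by_cases hd : p ∣ n
    · refine ⟨1, fun _ => ?_⟩
      have hd' : (p : ℤ) ∣ (n : ℤ) := Int.natCast_dvd_natCast.2 hd
      have hn1 : ¬ (p : ℤ) ∣ 1 := by
        intro h
        have h5 : p ∣ 1 := by exact_mod_cast h
        have := Nat.le_of_dvd one_pos h5
        omega
      push_cast
      constructor
      · intro h
        exact hn1 ((Int.dvd_iff_dvd_of_dvd_sub h).1 hd')
      · intro h
        exact hn1 ((Int.dvd_add_right hd').1 h)
    · refine ⟨0, fun _ => ?_⟩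
      have hd' : ¬ (p : ℤ) ∣ (n : ℤ) := fun h => hd (Int.natCast_dvd_natCast.1 h)
      push_cast
      rw [sub_zero, add_zero]
      exact ⟨hd', hd'⟩

/-- **EVERY system of even numbers `2 nᵢ`: distinct summands with a common distance, restricted digits.** For `j ≥ 1` and `E`
there are `c > 0` and `r₀` such that for all `r ≥ r₀`, `g ≥ 2` there are `κ, C > 0` such that for all large `K`, all
`n₁, …, nⱼ ≤ g ^ (E K)` with `Adm` (always true for `j = 1`), all `t₀ ≥ 1` with `t₀ + 2 g ^ K ≤ nᵢ` and all digit sets `A` with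
`Rich c g K A`: if there is no obvious obstruction in the last digit, then at least `κ V |A 0| ⋯ |A (K - 1)|` of the `t = t₀ + u`
(`u < g ^ K` with digits in the `A i`) are such that all `nᵢ - t`, `nᵢ + t` have at most `r` prime factors, all larger than
`g ^ (K / r)`; and at most `C V |A 0| ⋯ |A (K - 1)|` are such that all `nᵢ - t`, `nᵢ + t` are primes. -/
theorem result (j E : ℕ) (hj : 1 ≤ j) :
    (∀ n : ℕ, Adm (fun _ : Fin 1 => n)) ∧
    ∃ c : ℝ, 0 < c ∧ ∃ r₀ : ℕ, 2 ≤ r₀ ∧ ∀ r : ℕ, r₀ ≤ r → ∀ g : ℕ, 2 ≤ g → ∃ κ C : ℝ, 0 < κ ∧ 0 < C ∧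
      ∀ᶠ K : ℕ in atTop, ∀ (n : Fin j → ℕ) (t₀ : ℕ), Adm n → 1 ≤ t₀ →
        (∀ i, t₀ + 2 * g ^ K ≤ n i ∧ n i ≤ g ^ (E * K)) → ∀ A : ℕ → Finset ℕ, Rich c g K A →
        ((∃ d ∈ A 0, All (fun m => m.Coprime g) n (t₀ + d)) →
          κ * V n (g ^ K) * choices K A ≤ count g K A fun u => All (AlmostPrime (g ^ K) r) n (t₀ + u)) ∧
        (count g K A (fun u => All Nat.Prime n (t₀ + u)) : ℝ) ≤ C * V n (g ^ K) * choices K A := by
  refine ⟨adm_one, ?_⟩
  obtain ⟨c, hc, r₀, hr₀, h⟩ := formsZ (2 * j) (2 * j * (E + 1)) (by omega)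
  refine ⟨c, hc, r₀, hr₀, fun r hr g hg => ?_⟩
  obtain ⟨κ, C, hκ, hC, h1⟩ := h r hr g hg
  refine ⟨κ, C, hκ, hC, ?_⟩
  filter_upwards [h1, eventually_ge_atTop 1] with K hK hK1
  intro n t₀ hadm ht₀ hn A hA
  have hgK : 2 ≤ g ^ K := (show 2 ≤ g from hg).trans (Nat.le_self_pow (by omega) g)
  have fl : ∀ (i : Fin j) (u : ℕ), F n t₀ (Fin.castAdd j i) u = (n i : ℤ) - (t₀ + u) := by
    intro i u
    unfold F
    rw [Fin.append_left]
  have fr : ∀ (i : Fin j) (u : ℕ), F n t₀ (Fin.natAdd j i) u = (n i : ℤ) + (t₀ + u) := by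
    intro i u
    unfold F
    rw [Fin.append_right]
  have hall : ∀ (R : ℤ → Prop) (u : ℕ), (∀ i, R (F n t₀ i u)) ↔
      ∀ i, R ((n i : ℤ) - (t₀ + u)) ∧ R ((n i : ℤ) + (t₀ + u)) := by
    intro R u
    constructor
    · intro h i
      exact ⟨by rw [← fl i u]; exact h _, by rw [← fr i u]; exact h _⟩
    · intro h i
      refine Fin.addCases (fun i => ?_) (fun i => ?_) i
      · rw [fl]; exact (h i).1
      · rw [fr]; exact (h i).2
  have hiff : ∀ (P : ℕ → Prop) (u : ℕ), u < g ^ K →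
      ((∀ i, P (F n t₀ i u).natAbs) ↔ All P n (t₀ + u)) := by
    intro P u hu
    rw [hall (fun z => P z.natAbs) u]
    unfold All
    refine forall_congr' fun i => ?_
    obtain ⟨h1, h2⟩ := hn i
    have e1 : ((n i : ℤ) - (t₀ + u)).natAbs = n i - (t₀ + u) := by omega
    have e2 : ((n i : ℤ) + (t₀ + u)).natAbs = n i + (t₀ + u) := by omega
    rw [e1, e2]
  have hE : ∀ i, n i ≤ g ^ (E * K) := fun i => (hn i).2
  have hbound : ∀ u < g ^ K, ∀ i, u ≤ (F n t₀ i u).natAbs ∧ (F n t₀ i u).natAbs ≤ g ^ ((E + 1) * K) := by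
    intro u hu
    rw [hall (fun z => u ≤ z.natAbs ∧ z.natAbs ≤ g ^ ((E + 1) * K)) u]
    intro i
    obtain ⟨h1, h2⟩ := hn i
    have h3 : n i * 2 ≤ g ^ ((E + 1) * K) := by
      rw [add_mul, one_mul, pow_add]
      exact Nat.mul_le_mul h2 hgK
    obtain ⟨W, hW⟩ : ∃ W, W = g ^ ((E + 1) * K) := ⟨_, rfl⟩
    rw [← hW] at h3 ⊢
    refine ⟨⟨?_, ?_⟩, ?_, ?_⟩ <;> omega
  obtain ⟨hlow, hup⟩ := hK (j + j) (F n t₀)
    ⟨Q n t₀, Q_deg _ _, fun u => (F_prod n t₀ u).symm⟩
    (fun p hp => by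
      obtain ⟨t, ht⟩ := hadm p hp
      have hpz := Nat.prime_iff_prime_int.1 hp
      refine ⟨t + (p - 1) * t₀, fun h => ?_⟩
      rw [hpz.dvd_finsetProd_iff] at h
      obtain ⟨i, -, hi⟩ := h
      have key : ∀ i, ¬ (p : ℤ) ∣ F n t₀ i (t + (p - 1) * t₀) := by
        rw [hall (fun z => ¬ (p : ℤ) ∣ z)]
        intro i
        obtain ⟨h1, h2⟩ := ht i
        have hp1 : ((p - 1 : ℕ) : ℤ) = p - 1 := by
          rw [Nat.cast_sub hp.one_lt.le]
          norm_num
        have e1 : (n i : ℤ) - (t₀ + ((t + (p - 1) * t₀ : ℕ) : ℤ)) = ((n i : ℤ) - t) - p * t₀ := by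
          push_cast
          rw [hp1]
          ring
        have e2 : (n i : ℤ) + (t₀ + ((t + (p - 1) * t₀ : ℕ) : ℤ)) = ((n i : ℤ) + t) + p * t₀ := by
          push_cast
          rw [hp1]
          ring
        rw [e1, e2]
        refine ⟨fun h3 => h1 ?_, fun h3 => h2 ?_⟩
        · exact (Int.dvd_iff_dvd_of_dvd_sub (by simpa using h3 : (p : ℤ) ∣ ((n i : ℤ) - t) - p * t₀)).2 (Dvd.intro _ rfl)
        · exact (Int.dvd_add_left (Dvd.intro _ rfl)).1 h3
      exact key i hi)
    (fun u hu i => (hbound u hu i).1)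
    (fun u hu => by
      calc ∏ i, (F n t₀ i u).natAbs ≤ ∏ _i : Fin (j + j), g ^ ((E + 1) * K) :=
            prod_le_prod' fun i _ => (hbound u hu i).2
        _ = (g ^ ((E + 1) * K)) ^ (j + j) := by simp
        _ = g ^ (2 * j * (E + 1) * K) := by
            rw [← pow_mul]
            congr 1
            ring
        _ ≤ g ^ (2 * j * (E + 1) * K) := le_rfl) A hA
  rw [V_eq] at hlow hup
  constructor
  · rintro ⟨d, hd, hd0⟩
    have hdK : d < g ^ K := by
      have := mem_range.1 (hA.1 0 (by omega) hd)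
      exact this.trans_le (Nat.le_self_pow (by omega) g)
    exact (hlow ⟨d, hd, (hiff _ d hdK).2 hd0⟩).trans (Nat.cast_le.2 (count_mono fun t ht h => (hiff _ t ht).1 h))
  · exact le_trans (Nat.cast_le.2 (count_mono fun t ht h => (hiff _ t ht).2 h)) hup

end Pool.Agent.Results.MP_61161c_nt.CommonDistance
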