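import Pool.Agent.Q145.GB2

/-!
# Sums of two distinct odd primes for almost all even members `n` of the Hamming
spheres around an arbitrary large integer

Definitions used from `Pool.Agent.H560R3.GB`: `C₂`: the twin prime constant
`∏_{p > 2} (1 - 1 / (p - 1) ^ 2)`; `sing n`: the singular series `2 C₂ ∏_{p ∣ n, p > 2} (p - 1) / (p - 2)`;
`HL n = sing n * n / log ^ 2 n`: the prediction of Hardy and Littlewood for the number of ordered
representations of `n` as a sum of two primes.
-/

set_option autoImplicit false

namespace Pool.Agent.Results.MP_61161c_nt.HammingSpheres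

open Finset Pool.Agent.H560R3.GB

/-- The number of the pairs of distinct odd primes `p < p'` with `p + p' = n`. -/
def D (n : ℕ) : ℕ :=
  ((range n).filter (fun p => p.Prime ∧ p ≠ 2 ∧ (n - p).Prime ∧ n - p ≠ 2 ∧ p < n - p)).card

/-- (1) The number of the pairs of distinct odd primes `p < p'` with `p + p' = n` agrees with half of the
prediction of Hardy and Littlewood up to a relative error of at most `ε`; (2) there is such a pair, and
moreover one with `√n < p`. -/
def Holds (ε : ℝ) (n : ℕ) : Prop :=
  |(D n : ℝ) - HL n / 2| ≤ ε * (HL n / 2) ∧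
    ∃ p p' : ℕ, p.Prime ∧ p'.Prime ∧ p ≠ 2 ∧ p' ≠ 2 ∧ p < p' ∧ p + p' = n ∧ n < p ^ 2

/-- The digit number `i` (counted from the right, beginning with `0`) of `n` in base `b`. -/
def digit (b i n : ℕ) : ℕ := n / b ^ i % b

/-- The number of digits of `n ≥ 1` in base `b`. -/
def len (b n : ℕ) : ℕ := Nat.log b n + 1

open Classical in
/-- The numbers `n` (with at most as many digits as `N`) whose digits in base `b` differ from the digits of
`N` at exactly `r` positions, where the first and the last digit are the same as those of `N` and every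
digit which differs from the digit of `N` belongs to the set `F i` of the admissible new digits at its
position `i`. (If all digits are admissible, then this is the Hamming sphere of radius `r` around `N` in
the set of the numbers which have the same first and last digit as `N`.) -/
noncomputable def sphere (b N : ℕ) (F : ℕ → Finset ℕ) (r : ℕ) : Finset ℕ :=
  (range (b ^ len b N)).filter (fun n =>
    (∀ i ∈ range (len b N), digit b i n ≠ digit b i N → i ∈ Ico 1 (len b N - 1) ∧ digit b i n ∈ F i) ∧
    ((range (len b N)).filter (fun i => digit b i n ≠ digit b i N)).card = r)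

open Classical in
/-- The number of the even members of the sphere which do not satisfy `Holds ε`. -/
noncomputable def exceptions (ε : ℝ) (b N : ℕ) (F : ℕ → Finset ℕ) (r : ℕ) : ℕ :=
  ((sphere b N F r).filter (fun n => Even n ∧ ¬ Holds ε n)).card

lemma holds_of (ε : ℝ) (hε : 0 < ε) : ∃ (η : ℝ) (n₀ : ℕ), 0 < η ∧ ∀ n : ℕ, n₀ ≤ n → Even n →
    Pool.Agent.TH894.SM.Good η n → Holds ε n := by
  obtain ⟨η, n₀, hη, h⟩ := Pool.Agent.Q145.GB2.strict ε hε
  refine ⟨η, n₀ + 16, hη, fun n hn hev hG => ?_⟩
  obtain ⟨h1, -, h2⟩ := h n (by omega) hev hG.1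
  refine ⟨h2, ?_⟩
  unfold Pool.Agent.Q145.GB2.K' at h1
  rw [card_pos] at h1
  obtain ⟨p, hp⟩ := h1
  rw [mem_filter, mem_Ioo] at hp
  obtain ⟨⟨h3, h4⟩, h5, h6⟩ := hp
  have h7 : 4 ≤ Nat.sqrt n := by
    rw [Nat.le_sqrt]
    omega
  exact ⟨p, n - p, h5, h6, by omega, by omega, by omega, by omega, Nat.sqrt_lt'.1 h3⟩

/-- For every base `b ≥ 2` there is a `c > 0`, and for every `ε > 0` there is a `C` such that for every
sufficiently large integer `N` and every radius `r` with `C log N / log log N ≤ r ≤ c log N` the following
holds. Let for every position `i` a set `F i` of `m ≥ 1` digits different from the digit of `N` be given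
(all such digits, for example). Then all but at most a proportion `ε` of the numbers which arise from `N`
by changing exactly `r` of the digits in base `b`, with the exception of the first and the last one, such
that the new digits belong to the sets `F i`, are odd or satisfy `Holds ε`: the number of the pairs of distinct odd primes with sum `n`
satisfies the asymptotic formula predicted by Hardy and Littlewood up to a relative error of at most `ε`, and
there is such a pair. -/
theorem result (b : ℕ) (hb : 2 ≤ b) : ∃ c : ℝ, 0 < c ∧ ∀ ε : ℝ, 0 < ε → ∃ (C : ℝ) (N₀ : ℕ), 0 < C ∧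
    ∀ N : ℕ, N₀ ≤ N → ∀ r : ℕ, C * (Real.log N / Real.log (Real.log N)) ≤ r → (r : ℝ) ≤ c * Real.log N →
    ∀ (m : ℕ) (F : ℕ → Finset ℕ), 1 ≤ m → (∀ i, F i ⊆ range b ∧ digit b i N ∉ F i ∧ (F i).card = m) →
      (exceptions ε b N F r : ℝ) ≤ ε * (sphere b N F r).card :=
  Pool.Agent.Q145.GB2.spheres Holds holds_of b hb

end Pool.Agent.Results.MP_61161c_nt.HammingSpheres
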