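import Pool.Agent.Q145.GB1
import Pool.Agent.Y885.WI4
import Pool.Agent.H560R3.GB.Defs

/-!
# Sums of two distinct and almost equal odd primes: random sums with up to two fifths of the scales
missing, and prescribed digits

Definitions used (in `Pool.Agent.H560R3.GB`): `C₂`: the twin prime constant
`∏_{p > 2} (1 - 1 / (p - 1) ^ 2)`; `sing m`: the singular series `2 C₂ ∏_{p ∣ m, p > 2} (p - 1) / (p - 2)`.
-/

set_option autoImplicit false

namespace Pool.Agent.Results.MP_61161c_nt.RandomSums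

open Finset Pool.Agent.H560R3.GB

/-- The number of the `p` such that `p` and `p' = m - p` are odd primes, `p < p'` and `p' - p ≤ H`. -/
def N (m H : ℕ) : ℕ :=
  ((range m).filter (fun p => p.Prime ∧ p ≠ 2 ∧ (m - p).Prime ∧ m - p ≠ 2 ∧ p < m - p ∧ m - p ≤ p + H)).card

/-- For every `H` with `m / log ^ A m ≤ H ≤ m` there are distinct odd primes `p < p'` with `p + p' = m` and
`p' - p ≤ H`, and the number of these pairs is `sing m * H / (2 log ^ 2 m)` up to a relative error of at
most `ε`. -/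
def Holds (ε : ℝ) (A m : ℕ) : Prop :=
  ∀ H : ℕ, H ≤ m → (m : ℝ) / Real.log m ^ A ≤ H →
    (∃ p p' : ℕ, p.Prime ∧ p'.Prime ∧ p ≠ 2 ∧ p' ≠ 2 ∧ p < p' ∧ p + p' = m ∧ p' - p ≤ H) ∧
    |(N m H : ℝ) - sing m * H / (2 * Real.log m ^ 2)| ≤ ε * (sing m * H / (2 * Real.log m ^ 2))

lemma holds_of (A : ℕ) (ε : ℝ) (hε : 0 < ε) : ∃ m₀ : ℕ, ∀ m : ℕ, m₀ ≤ m → 2 ∣ m →
    Pool.Agent.W93.PG.WinP (min ε (1 / 2) / 2) (A + 1) m → Holds ε A m :=
  Pool.Agent.Q145.GB1.holds_of A ε hε

/-- The set `J` of scales below `k` is rich: it contains more than three fifths of all the scales, more than one half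
of the `m` lowest scales, and a positive proportion of the `m` highest scales (the last two conditions are
void for `m ≤ D log k`). -/
structure Rich (δ : ℝ) (D k : ℕ) (J : Finset ℕ) : Prop where
  lt : ∀ j ∈ J, j < k
  all : (3 / 5 + δ) * k ≤ (J.card : ℝ)
  low : ∀ m ≤ k, (1 / 2 + δ) * m ≤ ((J.filter fun j => j < m).card : ℝ) + D * Real.log k
  high : ∀ m ≤ k, δ * m ≤ ((J.filter fun j => k - m ≤ j).card : ℝ) + D * Real.log k

open Classical in
/-- The probability of the event `E` if `x 0, ..., x (k - 1)` are independent random integers, where `x j` takes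
its values in the finite set `s j`, and the value `x` with the probability `p j x`. -/
noncomputable def Prob (k : ℕ) (s : ℕ → Finset ℤ) (p : ℕ → ℤ → ℝ) (E : (Fin k → ℤ) → Prop) : ℝ :=
  ∑ x ∈ Fintype.piFinset (fun j : Fin k => s j), if E x then ∏ j : Fin k, p j (x j) else 0

open Classical in
/-- Let `b ≥ 2`, `B ≥ 1`, `A`, `D`, `U`, `η > 0`, `δ > 0` and `ε > 0` be fixed, let `k` be large, and let `J` be an
arbitrary rich set of scales below `k`. (1) Let `x 0, ..., x (k - 1)` be arbitrary independent random integers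
with `|x j| ≤ B b ^ j` such that, for all `j` in `J`, no interval of the length `b ^ j / B` contains `x j` with a
probability larger than `1 - η` (nothing is assumed for the other `j`: these `x j` may be constants). Let `c` be an
arbitrary integer with `|c| ≤ B b ^ k`. Then, with a probability of at least `1 - 1 / k ^ U`, the integer
`m = c + x 0 + ... + x (k - 1)` has the following property: if `m` is positive and even, then for every `H` with
`m / log ^ A m ≤ H ≤ m` the integer `m` is a sum of two distinct odd primes `p < p'` with `p' - p ≤ H`, and the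
number of these representations is as predicted, up to a relative error of at most `ε`. (2) Let `S 0, ..., S (k - 1)` be
arbitrary nonempty sets of digits in base `b`, such that `S j` has at least two elements if `j` is in `J` (the
other digits may be prescribed). Then the same property holds for all the integers `m < b ^ k` whose digit at the
place `j` belongs to `S j` for all `j < k`, with at most `(#S 0 ⋯ #S (k - 1)) / k ^ U` exceptions. -/
theorem result (b B A D U : ℕ) (hb : 2 ≤ b) (hB : 1 ≤ B) (η δ ε : ℝ) (hη : 0 < η) (hδ : 0 < δ) (hε : 0 < ε) :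
    ∃ k₀ : ℕ, ∀ k : ℕ, k₀ ≤ k → ∀ J : Finset ℕ, Rich δ D k J →
      (∀ (s : ℕ → Finset ℤ) (p : ℕ → ℤ → ℝ),
        (∀ j < k, (∀ x ∈ s j, 0 ≤ p j x ∧ |x| ≤ (B : ℤ) * (b : ℤ) ^ j) ∧ ∑ x ∈ s j, p j x = 1) →
        (∀ j ∈ J, ∀ y : ℤ, ∑ x ∈ (s j).filter (fun x => y ≤ x ∧ (B : ℤ) * (x - y) ≤ (b : ℤ) ^ j), p j x ≤ 1 - η) →
        ∀ c : ℤ, |c| ≤ (B : ℤ) * (b : ℤ) ^ k →
          Prob k s p (fun x => 0 < c + ∑ j, x j ∧ Even (c + ∑ j, x j) ∧ ¬ Holds ε A (c + ∑ j, x j).toNat) ≤
            1 / (k : ℝ) ^ U) ∧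
      (∀ S : ℕ → Finset ℕ, (∀ j < k, (S j).Nonempty ∧ ∀ a ∈ S j, a < b) → (∀ j ∈ J, 2 ≤ (S j).card) →
        (((range (b ^ k)).filter fun m =>
            (∀ j < k, m / b ^ j % b ∈ S j) ∧ 0 < m ∧ Even m ∧ ¬ Holds ε A m).card : ℝ) ≤
          (∏ j ∈ range k, ((S j).card : ℝ)) / (k : ℝ) ^ U) := by
  obtain ⟨m₀, h0⟩ := holds_of A ε hε
  obtain ⟨k₀, h1⟩ := Pool.Agent.Y885.rs_both b B D (A + 1) U m₀ hb hB η δ (min ε (1 / 2) / 2) hη hδ
    (half_pos (lt_min hε (by norm_num : (0 : ℝ) < 1 / 2))) (Holds ε A) h0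
  refine ⟨k₀, fun k hk J hJ => ?_⟩
  obtain ⟨h2, h3⟩ := h1 k hk J ⟨hJ.lt, hJ.low, hJ.high, hJ.all⟩
  refine ⟨fun s p hs hp c hc => ?_, h3⟩
  refine le_trans (le_of_eq ?_) (h2 s p hs hp c hc)
  unfold Prob
  apply sum_congr rfl
  intro x _
  split_ifs <;> rfl

end Pool.Agent.Results.MP_61161c_nt.RandomSums
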